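import Pool.Agent.U310.TQ.Stm

/-! # Project TQ, package FILT: the natural filtration of independent events -/

set_option autoImplicit false

open MeasureTheory ProbabilityTheory Filter
open scoped Topology

namespace Pool.Agent.U688.TQ

open Pool.Agent.U310.TQ

theorem t_FILT : S_FILT := by
  intro Ω mΩ μ _ A hA hi
  have hle : ∀ n, MeasurableSpace.generateFrom {t | ∃ k ≤ n, A k = t} ≤ mΩ := by
    intro n
    refine MeasurableSpace.generateFrom_le ?_
    rintro t ⟨k, _, rfl⟩
    exact hA k
  refine ⟨⟨fun n => MeasurableSpace.generateFrom {t | ∃ k ≤ n, A k = t}, ?_, hle⟩, ?_, ?_⟩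
  · intro i j hij
    refine MeasurableSpace.generateFrom_mono ?_
    rintro t ⟨k, hk, rfl⟩
    exact ⟨k, hk.trans hij, rfl⟩
  · intro n
    exact MeasurableSpace.measurableSet_generateFrom ⟨n, le_refl n, rfl⟩
  · intro n
    have h1 := hi.indep_generateFrom_le_nat hA n
    have hm1 : MeasurableSpace.generateFrom {A (n + 1)} ≤ mΩ := by
      refine MeasurableSpace.generateFrom_le ?_
      intro t ht
      rw [Set.mem_singleton_iff] at ht
      rw [ht]
      exact hA _
    have hf : StronglyMeasurable[MeasurableSpace.generateFrom {A (n + 1)}]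
        ((A (n + 1)).indicator (fun _ => (1 : ℝ))) :=
      stronglyMeasurable_const.indicator
        (MeasurableSpace.measurableSet_generateFrom (Set.mem_singleton _))
    have h2 := condExp_indep_eq hm1 (hle n) hf h1
    refine EventuallyEq.trans h2 (Eventually.of_forall fun ω => ?_)
    simp only
    rw [integral_indicator_const (1 : ℝ) (hA _), smul_eq_mul, mul_one]

end Pool.Agent.U688.TQ
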